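import Mathlib
import Pool.Agent.H69.RapidExp

open scoped Pointwise

namespace Pool.Agent.Results.MP_d581c5_al.ProperCounter

/-- The free group of rank two carries a proper length function with Rapid Expansion and
without property RD. -/
theorem result : ∃ L : FreeGroup Bool → ℝ,
    (∀ g, 0 ≤ L g) ∧ L 1 = 0 ∧ (∀ g, L g⁻¹ = L g) ∧ (∀ g h, L (g * h) ≤ L g + L h) ∧
    (∀ r : ℝ, {g | L g ≤ r}.Finite) ∧
    (∀ r : ℝ, 0 ≤ r → ∀ S X : Finset (FreeGroup Bool), (∀ s ∈ S, L s ≤ r) →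
      (S.card : ℝ) * (X.card : ℝ) ≤ 8 * (1 + r) ^ 2 * ((S * X).card : ℝ)) ∧
    ¬ ∃ C : ℝ, 0 < C ∧ ∃ d : ℕ, ∀ r : ℝ, 0 ≤ r →
      ∀ (A B : Finset (FreeGroup Bool)) (f g : FreeGroup Bool → ℂ), (∀ y ∈ A, L y ≤ r) →
        ∑ x ∈ A * B, ‖∑ p ∈ (A ×ˢ B).filter (fun p => p.1 * p.2 = x), f p.1 * g p.2‖ ^ 2
          ≤ (C * (1 + r) ^ d) ^ 2 * (∑ y ∈ A, ‖f y‖ ^ 2) * (∑ z ∈ B, ‖g z‖ ^ 2) :=
  open Pool.Agent.H69.RapidExp in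
  ⟨L, L_nonneg, L_one, L_inv, L_mul, L_proper, re, not_rd⟩

end Pool.Agent.Results.MP_d581c5_al.ProperCounter
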